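import Mathlib

/-!
# Quasi-periodic functions on a group and homomorphisms of a finite index subgroup
-/

set_option autoImplicit false

namespace Pool.Agent.H85.FPS

open Module

variable {G F : Type*} [Group G] [Field F]

/-- functions whose differences by elements of `K` are constant -/
def QP (F : Type*) [Field F] (K : Subgroup G) : Submodule F (G → F) where
  carrier := {f | ∀ k ∈ K, ∀ x y, f (x * k) - f x = f (y * k) - f y}
  add_mem' := by
    intro f g hf hg k hk x y
    have h1 := hf k hk x y
    have h2 := hg k hk x y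
    simp only [Pi.add_apply]
    linear_combination h1 + h2
  zero_mem' := by
    intro k _ x y
    simp only [Pi.zero_apply]
  smul_mem' := by
    intro c f hf k hk x y
    have h1 := hf k hk x y
    simp only [Pi.smul_apply, smul_eq_mul]
    linear_combination c * h1

theorem diff_mul {K : Subgroup G} {f : G → F} (hf : f ∈ QP F K) (g x k : G) (hk : k ∈ K) :
    f (g * (x * k)) - f (x * k) = f (g * x) - f x := by
  have h1 := hf k hk (g * x) x
  rw [mul_assoc] at h1
  linear_combination h1

theorem diff_out {K : Subgroup G} {f : G → F} (hf : f ∈ QP F K) (g x : G) :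
    f (g * (x : G ⧸ K).out) - f (x : G ⧸ K).out = f (g * x) - f x := by
  obtain ⟨k, hk⟩ := QuotientGroup.mk_out_eq_mul K x
  rw [hk]
  exact diff_mul hf g x k k.2

/-- the elements that leave `f` invariant -/
def stab (f : G → F) : Subgroup G where
  carrier := {g | ∀ x, f (g * x) = f x}
  one_mem' := fun x => by rw [one_mul]
  mul_mem' := by
    intro a b ha hb x
    rw [mul_assoc, ha, hb]
  inv_mem' := by
    intro a ha x
    have := ha (a⁻¹ * x)
    rw [mul_inv_cancel_left] at this
    exact this.symm

omit [Field F] in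
theorem mem_stab (f : G → F) (g : G) : g ∈ stab f ↔ ∀ x, f (g * x) = f x := Iff.rfl

/-- the difference map at representatives -/
noncomputable def diffMap (K : Subgroup G) (g : G) : QP F K →ₗ[F] (G ⧸ K → F) where
  toFun := fun f q => (f : G → F) (g * q.out) - (f : G → F) q.out
  map_add' := by
    intro a b
    funext q
    simp only [Submodule.coe_add, Pi.add_apply]
    ring
  map_smul' := by
    intro c a
    funext q
    simp only [Submodule.coe_smul, Pi.smul_apply, smul_eq_mul, RingHom.id_apply]
    ring

theorem diffMap_eq_zero {K : Subgroup G} {g : G} {f : QP F K} (h : diffMap K g f = 0) :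
    g ∈ stab (f : G → F) := by
  intro x
  have h1 := congrFun h (x : G ⧸ K)
  have h2 : (f : G → F) (g * (x : G ⧸ K).out) - (f : G → F) (x : G ⧸ K).out = 0 := h1
  rw [diff_out f.2] at h2
  exact sub_eq_zero.1 h2

theorem finite_QP {K : Subgroup G} [K.FiniteIndex] (T : Finset G)
    (hT : Subgroup.closure (T : Set G) = ⊤) : Module.Finite F (QP F K) := by
  classical
  let φ : QP F K →ₗ[F] ((T → (G ⧸ K → F)) × F) :=
    LinearMap.prod (LinearMap.pi fun g => diffMap K (g : G))
      { toFun := fun f => (f : G → F) 1
        map_add' := fun _ _ => rfl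
        map_smul' := fun _ _ => rfl }
  have hinj : Function.Injective φ := by
    rw [injective_iff_map_eq_zero]
    intro f hf
    have h1 : ∀ g : T, diffMap K (g : G) f = 0 := fun g => congrFun (congrArg Prod.fst hf) g
    have h2 : (f : G → F) 1 = 0 := congrArg Prod.snd hf
    have h3 : Subgroup.closure (T : Set G) ≤ stab (f : G → F) := by
      rw [Subgroup.closure_le]
      intro g hg
      exact diffMap_eq_zero (h1 ⟨g, hg⟩)
    rw [hT] at h3
    apply Subtype.ext
    funext x
    have h4 := h3 (Subgroup.mem_top x) 1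
    rw [mul_one] at h4
    rw [h4, h2]
    rfl
  exact Module.Finite.of_injective φ hinj

/-- the homomorphism of `K` defined by a quasi-periodic function -/
def toHom (K : Subgroup G) : QP F K →ₗ[F] (Additive K →+ F) where
  toFun := fun f =>
    { toFun := fun k => (f : G → F) (Additive.toMul k : K) - (f : G → F) 1
      map_zero' := by
        rw [toMul_zero, Subgroup.coe_one, sub_self]
      map_add' := by
        intro a b
        rw [toMul_add, Subgroup.coe_mul]
        have h1 := f.2 (Additive.toMul b : K) (Additive.toMul b : K).2 (Additive.toMul a : K) 1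
        rw [one_mul] at h1
        linear_combination h1 }
  map_add' := by
    intro a b
    refine AddMonoidHom.ext fun k => ?_
    change ((a : G → F) (Additive.toMul k : K) + (b : G → F) (Additive.toMul k : K)) -
      ((a : G → F) 1 + (b : G → F) 1) = ((a : G → F) (Additive.toMul k : K) - (a : G → F) 1) +
      ((b : G → F) (Additive.toMul k : K) - (b : G → F) 1)
    ring
  map_smul' := by
    intro c a
    refine AddMonoidHom.ext fun k => ?_
    change c * (a : G → F) (Additive.toMul k : K) - c * (a : G → F) 1 =
      c * ((a : G → F) (Additive.toMul k : K) - (a : G → F) 1)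
    ring

theorem toHom_surj (K : Subgroup G) : Function.Surjective (toHom (F := F) K) := by
  intro φ
  have hmem : ∀ x : G, ((x : G ⧸ K).out)⁻¹ * x ∈ K := by
    intro x
    rw [← QuotientGroup.eq, QuotientGroup.out_eq']
  let f : G → F := fun x => φ (Additive.ofMul ⟨((x : G ⧸ K).out)⁻¹ * x, hmem x⟩)
  have hf : ∀ (k : G) (hk : k ∈ K) (x : G), f (x * k) - f x = φ (Additive.ofMul ⟨k, hk⟩) := by
    intro k hk x
    have h1 : ((x * k : G) : G ⧸ K) = (x : G ⧸ K) := by
      rw [eq_comm, QuotientGroup.eq, inv_mul_cancel_left]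
      exact hk
    have h2 : (⟨(((x * k : G) : G ⧸ K).out)⁻¹ * (x * k), hmem (x * k)⟩ : K) =
        ⟨((x : G ⧸ K).out)⁻¹ * x, hmem x⟩ * ⟨k, hk⟩ := by
      apply Subtype.ext
      rw [Subgroup.coe_mul]
      change (((x * k : G) : G ⧸ K).out)⁻¹ * (x * k) = ((x : G ⧸ K).out)⁻¹ * x * k
      rw [h1, mul_assoc]
    change φ (Additive.ofMul ⟨(((x * k : G) : G ⧸ K).out)⁻¹ * (x * k), hmem (x * k)⟩) -
      φ (Additive.ofMul ⟨((x : G ⧸ K).out)⁻¹ * x, hmem x⟩) = _
    rw [h2, ofMul_mul, map_add]
    ring
  have hfQ : f ∈ QP F K := by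
    intro k hk x y
    rw [hf k hk x, hf k hk y]
  refine ⟨⟨f, hfQ⟩, ?_⟩
  refine AddMonoidHom.ext fun k => ?_
  change f (Additive.toMul k : K) - f 1 = φ k
  have h1 := hf (Additive.toMul k : K) (Additive.toMul k : K).2 1
  rw [one_mul] at h1
  rw [h1]
  rfl

/-- functions on `G / K` are quasi-periodic -/
def ofFun (K : Subgroup G) : (G ⧸ K → F) →ₗ[F] QP F K where
  toFun := fun h => ⟨fun x => h (x : G ⧸ K), by
    intro k hk x y
    have h1 : ∀ z : G, ((z * k : G) : G ⧸ K) = (z : G ⧸ K) := by
      intro z
      rw [eq_comm, QuotientGroup.eq, inv_mul_cancel_left]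
      exact hk
    change h ((x * k : G) : G ⧸ K) - h (x : G ⧸ K) = h ((y * k : G) : G ⧸ K) - h (y : G ⧸ K)
    rw [h1, h1, sub_self, sub_self]⟩
  map_add' := fun _ _ => rfl
  map_smul' := fun _ _ => rfl

theorem finrank_hom_le {K : Subgroup G} [K.FiniteIndex] [Module.Finite F (QP F K)] (t : G) :
    Module.Finite F (Additive K →+ F) ∧
    finrank F (Additive K →+ F) ≤ finrank F (LinearMap.ker (diffMap (F := F) K t)) := by
  have hfin : Module.Finite F (Additive K →+ F) := Module.Finite.of_surjective _ (toHom_surj K)
  refine ⟨hfin, ?_⟩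
  have e1 := LinearMap.finrank_range_add_finrank_ker (toHom (F := F) K)
  have e2 := LinearMap.finrank_range_add_finrank_ker (diffMap (F := F) K t)
  rw [LinearMap.range_eq_top.2 (toHom_surj K), finrank_top] at e1
  have hker : ∀ h : G ⧸ K → F, ofFun K h ∈ LinearMap.ker (toHom (F := F) K) := by
    intro h
    rw [LinearMap.mem_ker]
    refine AddMonoidHom.ext fun k => ?_
    change h (((Additive.toMul k : K) : G) : G ⧸ K) - h ((1 : G) : G ⧸ K) = 0
    have h1 : (((Additive.toMul k : K) : G) : G ⧸ K) = ((1 : G) : G ⧸ K) := by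
      rw [eq_comm, QuotientGroup.eq, inv_one, one_mul]
      exact (Additive.toMul k : K).2
    rw [h1, sub_self]
  have hinj : Function.Injective ((ofFun (F := F) K).codRestrict _ hker) := by
    intro a b hab
    have h1 : ofFun K a = ofFun K b := congrArg Subtype.val hab
    have h2 : (fun x : G => a (x : G ⧸ K)) = fun x : G => b (x : G ⧸ K) := congrArg Subtype.val h1
    funext q
    obtain ⟨x, rfl⟩ := QuotientGroup.mk_surjective q
    exact congrFun h2 x
  have e3 := LinearMap.finrank_le_finrank_of_injective hinj
  have e4 : finrank F (LinearMap.range (diffMap (F := F) K t)) ≤ finrank F (G ⧸ K → F) :=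
    Submodule.finrank_le _
  omega

end Pool.Agent.H85.FPS
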