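import Pool.Agent.H85.FPS.Shearer
import Pool.Agent.H85.FPS.Quasi

/-!
# The main inequality
-/

set_option autoImplicit false

namespace Pool.Agent.H85.FPS

open Module

theorem word_lemma {G : Type*} [Group G] (S : Finset G) (g : G)
    (hg : g ∈ Submonoid.closure (S : Set G)) :
    ∃ U : Finset G, (∀ u ∈ U, u ∈ Submonoid.closure (S : Set G)) ∧
      ∀ (F : Type) (f : G → F) (y : G), (∀ u ∈ U, ∀ s ∈ S, f (s * (u * y)) = f (u * y)) →
        f (g * y) = f y := by
  classical
  induction hg using Submonoid.closure_induction with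
  | mem s hs =>
    refine ⟨{1}, ?_, ?_⟩
    · intro u hu
      rw [Finset.mem_singleton] at hu
      rw [hu]
      exact one_mem _
    · intro F f y h
      have := h 1 (Finset.mem_singleton_self 1) s hs
      rwa [one_mul] at this
  | one =>
    refine ⟨∅, by simp, ?_⟩
    intro F f y _
    rw [one_mul]
  | mul a b ha hb iha ihb =>
    obtain ⟨U, hU, h1⟩ := iha
    obtain ⟨W, hW, h2⟩ := ihb
    refine ⟨U.image (· * b) ∪ W, ?_, ?_⟩
    · intro u hu
      rw [Finset.mem_union, Finset.mem_image] at hu
      rcases hu with ⟨v, hv, rfl⟩ | hu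
      · exact mul_mem (hU v hv) hb
      · exact hW u hu
    · intro F f y h
      have e1 : f (a * (b * y)) = f (b * y) := by
        apply h1
        intro u hu s hs
        have := h (u * b) (Finset.mem_union_left _ (Finset.mem_image_of_mem _ hu)) s hs
        rwa [mul_assoc u b y] at this
      have e2 : f (b * y) = f y := by
        apply h2
        intro u hu s hs
        exact h u (Finset.mem_union_right _ hu) s hs
      rw [mul_assoc, e1, e2]

theorem prop_lemma {G : Type*} [Group G] (N : Subgroup G) [N.Normal] (S : Finset G) (t : G)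
    (hS : Submonoid.closure (S : Set G) = N.toSubmonoid) :
    ∃ U : Finset G, (∀ u ∈ U, u ∈ N) ∧
      ∀ (F : Type) (f : G → F), t ∈ stab f → ∀ x : G,
        (∀ u ∈ U, ∀ s ∈ S, f (s * (u * t⁻¹ * x)) = f (u * t⁻¹ * x)) →
        ∀ s ∈ S, f (s * x) = f x := by
  classical
  have hmem : ∀ s ∈ S, s ∈ N := by
    intro s hs
    have : s ∈ Submonoid.closure (S : Set G) := Submonoid.subset_closure hs
    rw [hS] at this
    exact this
  have h1 : ∀ s : S, ∃ U : Finset G, (∀ u ∈ U, u ∈ Submonoid.closure (S : Set G)) ∧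
      ∀ (F : Type) (f : G → F) (y : G), (∀ u ∈ U, ∀ s ∈ S, f (s * (u * y)) = f (u * y)) →
        f (t⁻¹ * s * t * y) = f y := by
    intro s
    apply word_lemma
    rw [hS]
    have := (inferInstance : N.Normal).conj_mem s (hmem s s.2) t⁻¹
    rwa [inv_inv] at this
  choose U hU h2 using h1
  refine ⟨S.attach.biUnion U, ?_, ?_⟩
  · intro u hu
    rw [Finset.mem_biUnion] at hu
    obtain ⟨s, _, hs⟩ := hu
    have := hU s u hs
    rw [hS] at this
    exact this
  · intro F f ht x h s hs
    have e1 : f (t⁻¹ * s * t * (t⁻¹ * x)) = f (t⁻¹ * x) := by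
      apply h2 ⟨s, hs⟩ F f (t⁻¹ * x)
      intro u hu s' hs'
      have := h u (Finset.mem_biUnion.2 ⟨⟨s, hs⟩, Finset.mem_attach _ _, hu⟩) s' hs'
      rwa [mul_assoc u t⁻¹ x] at this
    have e2 : f (t⁻¹ * x) = f x := (stab f).inv_mem ht x
    have e3 : f (s * x) = f (t * (t⁻¹ * s * t * (t⁻¹ * x))) := by
      congr 1
      group
    rw [e3, ht, e1, e2]

section main

variable {G : Type*} [Group G] {F : Type} [Field F]

section abs

variable {V : Type*} [AddCommGroup V] [Module F V] (ev : V →ₗ[F] (G → F))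

/-- restriction to the coset `q` -/
noncomputable def resMap (K : Subgroup G) (S : Finset G) (q : G ⧸ K) : V →ₗ[F] (S → F) where
  toFun := fun f s => ev f (s * q.out) - ev f q.out
  map_add' := by
    intro a b
    funext s
    simp only [map_add, Pi.add_apply]
    ring
  map_smul' := by
    intro c a
    funext s
    simp only [map_smul, Pi.smul_apply, smul_eq_mul, RingHom.id_apply]
    ring

theorem mem_res {K : Subgroup G} (hQP : ∀ v, ev v ∈ QP F K) {S : Finset G} {f : V}
    (x : G) : f ∈ LinearMap.ker (resMap ev K S (x : G ⧸ K)) ↔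
      ∀ s ∈ S, ev f (s * x) = ev f x := by
  rw [LinearMap.mem_ker]
  constructor
  · intro h s hs
    have h1 : ev f (s * (x : G ⧸ K).out) - ev f (x : G ⧸ K).out = 0 := congrFun h ⟨s, hs⟩
    rw [diff_out (hQP f)] at h1
    exact sub_eq_zero.1 h1
  · intro h
    funext s
    change ev f (s * (x : G ⧸ K).out) - ev f (x : G ⧸ K).out = 0
    rw [diff_out (hQP f), h s s.2, sub_self]

variable [Module.Finite F V]

theorem abs_ineq (hev : Function.Injective ev) (K M N : Subgroup G) [K.Normal] [K.FiniteIndex]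
    [M.Normal] (hQP : ∀ v, ev v ∈ QP F K) (χ : G →* Multiplicative ℤ)
    (hN : N = χ.ker) (hMN : M ≤ N) (t : G) (ht : χ t = Multiplicative.ofAdd 1)
    (htst : ∀ v, t ∈ stab (ev v)) (S : Finset G)
    (hgen : ∀ H : Subgroup G, t ∈ H → (∀ s ∈ S, s ∈ H) → ∀ g : G, g ∈ H)
    (U : Finset G) (hU : ∀ u ∈ U, u ∈ N)
    (hprop : ∀ f : G → F, t ∈ stab f → ∀ x : G,
        (∀ u ∈ U, ∀ s ∈ S, f (s * (u * t⁻¹ * x)) = f (u * t⁻¹ * x)) →
        ∀ s ∈ S, f (s * x) = f x)
    (B B' : Finset (G ⧸ M))
    (hB' : ∀ b ∈ B, b ∉ B' → ∀ u ∈ U, ((u * t⁻¹ : G) : G ⧸ M) * b ∈ B)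
    (hinj : ∀ b ∈ B, ∀ c ∈ B, ∀ g : G, b⁻¹ * c = (g : G ⧸ M) → g ∈ K ⊔ M → b = c) :
    (B.card : ℤ) * ((finrank F V : ℤ) - 1) ≤ (S.card : ℤ) * (B'.card * K.index) := by
  classical
  have hfinite : Finite (G ⧸ K) := inferInstance
  cases nonempty_fintype (G ⧸ K)
  let A := G ⧸ (K ⊔ M)
  let π : G ⧸ K →* A := QuotientGroup.map K (K ⊔ M) (MonoidHom.id G) (fun _ h => Subgroup.mem_sup_left h)
  let ρ : G ⧸ M →* A := QuotientGroup.map M (K ⊔ M) (MonoidHom.id G) (fun _ h => Subgroup.mem_sup_right h)
  have hπs : Function.Surjective π := by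
    intro a
    obtain ⟨x, rfl⟩ := QuotientGroup.mk_surjective a
    exact ⟨(x : G ⧸ K), rfl⟩
  have hfA : Finite A := Finite.of_surjective π hπs
  cases nonempty_fintype A
  have hρinj : ∀ b ∈ B, ∀ c ∈ B, ρ b = ρ c → b = c := by
    intro b hb c hc h
    obtain ⟨g, hg⟩ := QuotientGroup.mk_surjective (b⁻¹ * c)
    refine hinj b hb c hc g hg.symm ?_
    have h1 : ρ (g : G ⧸ M) = 1 := by
      rw [hg, map_mul, map_inv, h, inv_mul_cancel]
    exact (QuotientGroup.eq_one_iff g).1 h1
  let R : G ⧸ K → Submodule F V := fun q => LinearMap.ker (resMap ev K S q)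
  let T : A → Finset (G ⧸ K) := fun a => Finset.univ.filter (fun q => ∃ b ∈ B, π q = ρ b * a)
  let T' : A → Finset (G ⧸ K) := fun a => Finset.univ.filter (fun q => ∃ b ∈ B', π q = ρ b * a)
  -- covering
  have hcov : ∀ q ∈ (Finset.univ : Finset (G ⧸ K)),
      B.card ≤ ((Finset.univ : Finset A).filter (fun a => q ∈ T a)).card := by
    intro q _
    have h1 : (B.image (fun b => (ρ b)⁻¹ * π q)).card = B.card := by
      apply Finset.card_image_of_injOn
      intro b hb c hc h
      exact hρinj b hb c hc (inv_injective (mul_right_cancel h))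
    rw [← h1]
    apply Finset.card_le_card
    intro a ha
    rw [Finset.mem_image] at ha
    obtain ⟨b, hb, rfl⟩ := ha
    rw [Finset.mem_filter]
    refine ⟨Finset.mem_univ _, ?_⟩
    rw [Finset.mem_filter]
    exact ⟨Finset.mem_univ _, b, hb, by rw [mul_inv_cancel_left]⟩
  have hsh := shearer R Finset.univ T B.card Finset.univ hcov
  -- codimension of one coset
  have hd : ∀ q, finrank F V ≤ finrank F (R q) + S.card := by
    intro q
    have e1 := LinearMap.finrank_range_add_finrank_ker (resMap ev K S q)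
    have e2 : finrank F (LinearMap.range (resMap ev K S q)) ≤ finrank F (S → F) :=
      Submodule.finrank_le _
    rw [Module.finrank_fintype_fun_eq_card, Fintype.card_coe] at e2
    change finrank F V ≤ finrank F (LinearMap.ker (resMap ev K S q)) + S.card
    omega
  -- the intersection of all
  have hall : finrank F ((Finset.univ : Finset (G ⧸ K)).inf R : Submodule F V) ≤ 1 := by
    let W : Submodule F V := (Finset.univ : Finset (G ⧸ K)).inf R
    let e : W →ₗ[F] F :=
      { toFun := fun f => ev (f : V) 1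
        map_add' := fun a b => by
          change ev ((a : V) + (b : V)) 1 = _
          rw [map_add]
          rfl
        map_smul' := fun c a => by
          change ev (c • (a : V)) 1 = _
          rw [map_smul]
          rfl }
    have he : Function.Injective e := by
      rw [injective_iff_map_eq_zero]
      intro f hf
      have h1 : ∀ q : G ⧸ K, (f : V) ∈ R q := by
        intro q
        have h2 : (Finset.univ : Finset (G ⧸ K)).inf R ≤ R q := Finset.inf_le (Finset.mem_univ q)
        exact h2 f.2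
      have h3 : ∀ g : G, g ∈ stab (ev (f : V)) := by
        apply hgen
        · exact htst f
        · intro s hs x
          exact (mem_res ev hQP x).1 (h1 (x : G ⧸ K)) s hs
      have h4 : ev (f : V) = 0 := by
        funext x
        have h5 := h3 x 1
        rw [mul_one] at h5
        rw [h5]
        exact hf
      apply Subtype.ext
      exact hev (by rw [h4]; exact (map_zero ev).symm)
    have h6 := LinearMap.finrank_le_finrank_of_injective he
    rwa [finrank_self] at h6
  -- propagation
  have hpr : ∀ a : A, (T' a).inf R ≤ (T a).inf R := by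
    intro a f hf
    have hf' : ∀ q ∈ T' a, f ∈ R q := fun q hq => (Finset.inf_le hq : (T' a).inf R ≤ R q) hf
    let χM : G ⧸ M →* Multiplicative ℤ := QuotientGroup.lift M χ (fun g hg => by
      have h1 : g ∈ χ.ker := by rw [← hN]; exact hMN hg
      exact h1)
    have key : ∀ b ∈ B, ∀ q : G ⧸ K, π q = ρ b * a → f ∈ R q := by
      by_contra hcon
      push Not at hcon
      let Bad : Finset (G ⧸ M) := B.filter (fun b => ∃ q : G ⧸ K, π q = ρ b * a ∧ f ∉ R q)
      have hBad : Bad.Nonempty := by
        obtain ⟨b, hb, q, hq, hfq⟩ := hcon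
        exact ⟨b, Finset.mem_filter.2 ⟨hb, q, hq, hfq⟩⟩
      obtain ⟨b, hb, hmin⟩ := Finset.exists_min_image Bad (fun b => Multiplicative.toAdd (χM b)) hBad
      obtain ⟨hbB, q, hq, hfq⟩ := Finset.mem_filter.1 hb
      have hbB' : b ∉ B' := by
        intro h
        exact hfq (hf' q (Finset.mem_filter.2 ⟨Finset.mem_univ _, b, h, hq⟩))
      apply hfq
      obtain ⟨x, rfl⟩ := QuotientGroup.mk_surjective q
      refine (mem_res ev hQP x).2 ?_
      apply hprop _ (htst f)
      intro u hu s hs
      have h1 := hB' b hbB hbB' u hu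
      have h2 : ((u * t⁻¹ : G) : G ⧸ M) * b ∉ Bad := by
        intro h3
        have h4 := hmin _ h3
        rw [map_mul, toAdd_mul] at h4
        have h5 : χM ((u * t⁻¹ : G) : G ⧸ M) = Multiplicative.ofAdd (-1) := by
          change χ (u * t⁻¹) = Multiplicative.ofAdd (-1)
          have h6 : χ u = 1 := by
            have := hU u hu
            rw [hN] at this
            exact this
          rw [map_mul, map_inv, h6, one_mul, ht, ofAdd_neg]
        rw [h5, toAdd_ofAdd] at h4
        omega
      have h7 : f ∈ R ((u * t⁻¹ * x : G) : G ⧸ K) := by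
        by_contra h8
        apply h2
        refine Finset.mem_filter.2 ⟨h1, ((u * t⁻¹ * x : G) : G ⧸ K), ?_, h8⟩
        have h9 : π ((u * t⁻¹ * x : G) : G ⧸ K) = ρ ((u * t⁻¹ : G) : G ⧸ M) * π (x : G ⧸ K) := rfl
        rw [h9, hq, map_mul, mul_assoc]
      exact (mem_res ev hQP _).1 h7 s hs
    have h9 : f ∈ (T a).inf R := by
      rw [Submodule.mem_finsetInf]
      intro q hq
      obtain ⟨_, b, hb, hbq⟩ := Finset.mem_filter.1 hq
      exact key b hb q hbq
    exact h9
  have hT' : ∑ a : A, ((T' a).card : ℤ) ≤ B'.card * K.index := by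
    have e1 : ∀ a : A, T' a ⊆ B'.biUnion (fun b => Finset.univ.filter (fun q => π q = ρ b * a)) := by
      intro a q hq
      obtain ⟨_, b, hb, hbq⟩ := Finset.mem_filter.1 hq
      exact Finset.mem_biUnion.2 ⟨b, hb, Finset.mem_filter.2 ⟨Finset.mem_univ _, hbq⟩⟩
    have e2 : ∀ a : A, (T' a).card ≤
        ∑ b ∈ B', (Finset.univ.filter (fun q => π q = ρ b * a)).card := fun a =>
      (Finset.card_le_card (e1 a)).trans Finset.card_biUnion_le
    have e3 : ∑ a : A, (T' a).card ≤
        ∑ a : A, ∑ b ∈ B', (Finset.univ.filter (fun q => π q = ρ b * a)).card :=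
      Finset.sum_le_sum (fun a _ => e2 a)
    rw [Finset.sum_comm] at e3
    have e4 : ∀ b ∈ B', ∑ a : A, (Finset.univ.filter (fun q => π q = ρ b * a)).card =
        K.index := by
      intro b _
      have e5 : ∀ a : A, (Finset.univ.filter (fun q => π q = ρ b * a)) =
          (Finset.univ : Finset (G ⧸ K)).filter (fun q => (ρ b)⁻¹ * π q = a) := by
        intro a
        apply Finset.filter_congr
        intro q _
        rw [inv_mul_eq_iff_eq_mul]
      simp_rw [e5]
      rw [← Finset.card_eq_sum_card_fiberwise (f := fun q => (ρ b)⁻¹ * π q)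
        (fun q _ => Finset.mem_coe.2 (Finset.mem_univ _)), Finset.card_univ, Subgroup.index,
        Nat.card_eq_fintype_card]
    rw [Finset.sum_congr rfl e4, Finset.sum_const, smul_eq_mul] at e3
    exact_mod_cast e3
  have h10 : ∀ a : A, (finrank F V : ℤ) - finrank F ((T a ∩ Finset.univ).inf R : Submodule F V) ≤
      (S.card : ℤ) * (T' a).card := by
    intro a
    rw [Finset.inter_univ]
    have e1 := codim_le R S.card hd (T' a)
    have e2 : finrank F ((T' a).inf R : Submodule F V) ≤ finrank F ((T a).inf R : Submodule F V) :=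
      Submodule.finrank_mono (hpr a)
    omega
  have h11 := Finset.sum_le_sum (fun a (_ : a ∈ (Finset.univ : Finset A)) => h10 a)
  rw [← Finset.mul_sum] at h11
  have h12 : (B.card : ℤ) * ((finrank F V : ℤ) - 1) ≤
      (B.card : ℤ) * ((finrank F V : ℤ) -
        finrank F ((Finset.univ : Finset (G ⧸ K)).inf R : Submodule F V)) := by
    apply mul_le_mul_of_nonneg_left _ (by positivity)
    omega
  have h14 : (S.card : ℤ) * ∑ a : A, ((T' a).card : ℤ) ≤ (S.card : ℤ) * (B'.card * K.index) :=
    mul_le_mul_of_nonneg_left hT' (by positivity)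
  linarith

end abs

theorem main_ineq (K M N : Subgroup G) [K.Normal] [K.FiniteIndex] [M.Normal] (χ : G →* Multiplicative ℤ)
    (hN : N = χ.ker) (hMN : M ≤ N) (t : G) (ht : χ t = Multiplicative.ofAdd 1) (S : Finset G)
    (hS : Submonoid.closure (S : Set G) = N.toSubmonoid)
    (U : Finset G) (hU : ∀ u ∈ U, u ∈ N)
    (hprop : ∀ f : G → F, t ∈ stab f → ∀ x : G,
        (∀ u ∈ U, ∀ s ∈ S, f (s * (u * t⁻¹ * x)) = f (u * t⁻¹ * x)) →
        ∀ s ∈ S, f (s * x) = f x)
    (B B' : Finset (G ⧸ M))
    (hB' : ∀ b ∈ B, b ∉ B' → ∀ u ∈ U, ((u * t⁻¹ : G) : G ⧸ M) * b ∈ B)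
    (hinj : ∀ b ∈ B, ∀ c ∈ B, ∀ g : G, b⁻¹ * c = (g : G ⧸ M) → g ∈ K ⊔ M → b = c) :
    Module.Finite F (Additive K →+ F) ∧
    (B.card : ℤ) * ((finrank F (Additive K →+ F) : ℤ) - 1) ≤
      (S.card : ℤ) * (B'.card * K.index) := by
  classical
  -- the group is generated by `S` and `t`
  have hgen : ∀ H : Subgroup G, t ∈ H → (∀ s ∈ S, s ∈ H) → ∀ g : G, g ∈ H := by
    intro H h1 h2 g
    have h3 : N ≤ H := by
      intro n hn
      have h4 : n ∈ Submonoid.closure (S : Set G) := by rw [hS]; exact hn
      have h5 : Submonoid.closure (S : Set G) ≤ H.toSubmonoid := by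
        rw [Submonoid.closure_le]
        exact h2
      exact h5 h4
    set m : ℤ := Multiplicative.toAdd (χ g) with hm
    have h6 : (t ^ m)⁻¹ * g ∈ N := by
      rw [hN, MonoidHom.mem_ker, map_mul, map_inv, map_zpow, ht, ← ofAdd_zsmul, smul_eq_mul,
        mul_one, hm, ofAdd_toAdd, inv_mul_cancel]
    have h7 := H.mul_mem (H.zpow_mem h1 m) (h3 h6)
    rwa [mul_inv_cancel_left] at h7
  have hfinQ : Module.Finite F (QP F K) := by
    apply finite_QP (insert t S)
    rw [eq_top_iff]
    intro g _
    apply hgen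
    · exact Subgroup.subset_closure (by simp)
    · intro s hs
      exact Subgroup.subset_closure (by simp [hs])
  obtain ⟨hfinH, hle⟩ := finrank_hom_le (F := F) (K := K) t
  refine ⟨hfinH, ?_⟩
  let ev : LinearMap.ker (diffMap (F := F) K t) →ₗ[F] (G → F) :=
    (QP F K).subtype.comp (LinearMap.ker (diffMap (F := F) K t)).subtype
  have hev : Function.Injective ev := by
    intro a b hab
    apply Subtype.ext
    apply Subtype.ext
    exact hab
  have hst : ∀ v : LinearMap.ker (diffMap (F := F) K t), t ∈ stab (ev v) := by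
    intro v
    exact diffMap_eq_zero (f := (v : QP F K)) (LinearMap.mem_ker.1 v.2)
  have hqp : ∀ v : LinearMap.ker (diffMap (F := F) K t), ev v ∈ QP F K := fun v => (v : QP F K).2
  have hfd : Module.Finite F (LinearMap.ker (diffMap (F := F) K t)) := inferInstance
  have h := @abs_ineq G _ F _ (LinearMap.ker (diffMap (F := F) K t)) _ _ ev _ hev K M N _ _ _ hqp χ
    hN hMN t ht hst S hgen U hU hprop B B' hB' hinj
  refine le_trans ?_ h
  apply mul_le_mul_of_nonneg_left _ (by positivity)
  omega

end main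

end Pool.Agent.H85.FPS
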