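import Pool.Agent.H85.FPS.Rank

/-!
# Folner's condition passes to quotients; nested sequences
-/

set_option autoImplicit false

namespace Pool.Agent.H85.FPS

theorem folner_quot {A A' : Type} [Group A] [Group A'] (ρ : A →* A') (hρ : Function.Surjective ρ)
    (hA : FolnerCondition A) : FolnerCondition A' := by
  classical
  intro E' ε hε
  choose σ hσ using hρ
  obtain ⟨B, hB, hBE⟩ := hA (E'.image σ) (ε / (E'.card + 1)) (by positivity)
  obtain ⟨φ, hφ⟩ : ∃ φ : A' → ℕ, ∀ x, φ x = (B.filter (fun b => ρ b = x)).card := ⟨_, fun _ => rfl⟩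
  have hφB : ∀ x, φ x ≤ B.card := fun x => by
    rw [hφ]
    exact Finset.card_filter_le _ _
  have hφ0 : ∀ x, 0 < φ x → x ∈ B.image ρ := by
    intro x hx
    rw [hφ] at hx
    obtain ⟨b, hb⟩ := Finset.card_pos.1 hx
    obtain ⟨h1, h2⟩ := Finset.mem_filter.1 hb
    exact Finset.mem_image.2 ⟨b, h1, h2⟩
  obtain ⟨L, hL⟩ : ∃ L : ℕ → Finset A', ∀ j x, x ∈ L j ↔ j < φ x := by
    refine ⟨fun j => (B.image ρ).filter (fun x => j < φ x), fun j x => ?_⟩
    rw [Finset.mem_filter]
    exact ⟨fun h => h.2, fun h => ⟨hφ0 x (by omega), h⟩⟩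
  have hLc : ∀ j, (L j).card = ∑ x ∈ B.image ρ, (if j < φ x then 1 else 0) := by
    intro j
    rw [← Finset.card_filter]
    congr 1
    ext x
    rw [Finset.mem_filter, hL]
    exact ⟨fun h => ⟨hφ0 x (by omega), h⟩, fun h => h.2⟩
  obtain ⟨d, hd⟩ : ∃ d : A' → ℕ → ℕ, ∀ e j, d e j = ((L j).filter (fun x => e * x ∉ L j)).card :=
    ⟨_, fun _ _ => rfl⟩
  have hsumL : ∑ j ∈ Finset.range B.card, (L j).card = B.card := by
    rw [Finset.sum_congr rfl (fun j _ => hLc j), Finset.sum_comm]
    have h1 : ∀ x ∈ B.image ρ, ∑ j ∈ Finset.range B.card, (if j < φ x then 1 else 0) =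
        (B.filter (fun b => ρ b = x)).card := by
      intro x _
      rw [← Finset.card_filter, ← hφ]
      have h2 : (Finset.range B.card).filter (fun j => j < φ x) = Finset.range (φ x) := by
        ext j
        rw [Finset.mem_filter, Finset.mem_range, Finset.mem_range]
        have := hφB x
        omega
      rw [h2, Finset.card_range]
    rw [Finset.sum_congr rfl h1]
    exact (Finset.card_eq_sum_card_image ρ B).symm
  have hsumd : ∀ e ∈ E', (∑ j ∈ Finset.range B.card, d e j) ≤
      (B.filter (fun b => σ e * b ∉ B)).card := by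
    intro e _
    have h1 : ∀ j, d e j = ∑ x ∈ B.image ρ, (if φ (e * x) ≤ j ∧ j < φ x then 1 else 0) := by
      intro j
      rw [← Finset.card_filter, hd]
      congr 1
      ext x
      constructor
      · intro h
        obtain ⟨h2, h3⟩ := Finset.mem_filter.1 h
        rw [hL] at h2 h3
        exact Finset.mem_filter.2 ⟨hφ0 x (by omega), not_lt.1 h3, h2⟩
      · intro h
        obtain ⟨_, h2, h3⟩ := Finset.mem_filter.1 h
        refine Finset.mem_filter.2 ⟨(hL _ _).2 h3, ?_⟩
        rw [hL]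
        exact not_lt.2 h2
    rw [Finset.sum_congr rfl (fun j _ => h1 j), Finset.sum_comm,
      Finset.card_eq_sum_card_fiberwise (f := ρ) (t := B.image ρ)
        (fun b hb => Finset.mem_coe.2 (Finset.mem_image_of_mem _
          (Finset.mem_filter.1 (Finset.mem_coe.1 hb)).1))]
    apply Finset.sum_le_sum
    intro x _
    rw [← Finset.card_filter]
    have h2 : (Finset.range B.card).filter (fun j => φ (e * x) ≤ j ∧ j < φ x) ⊆
        Finset.Ico (φ (e * x)) (φ x) := by
      intro j hj
      exact Finset.mem_Ico.2 (Finset.mem_filter.1 hj).2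
    refine (Finset.card_le_card h2).trans ?_
    rw [Nat.card_Ico, Nat.sub_le_iff_le_add]
    -- the fibre over `x` is split
    have h3 : φ x = ((B.filter (fun b => σ e * b ∉ B)).filter (fun b => ρ b = x)).card +
        ((B.filter (fun b => ρ b = x)).filter (fun b => σ e * b ∈ B)).card := by
      rw [add_comm, hφ]
      have h4 := Finset.card_filter_add_card_filter_not (s := B.filter (fun b => ρ b = x))
        (fun b => σ e * b ∈ B)
      have h5 : (B.filter (fun b => σ e * b ∉ B)).filter (fun b => ρ b = x) =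
          (B.filter (fun b => ρ b = x)).filter (fun b => ¬ σ e * b ∈ B) := by
        rw [Finset.filter_filter, Finset.filter_filter]
        apply Finset.filter_congr
        intro b _
        exact and_comm
      rw [h5, h4]
    have h4 : ((B.filter (fun b => ρ b = x)).filter (fun b => σ e * b ∈ B)).card ≤ φ (e * x) := by
      rw [hφ]
      apply Finset.card_le_card_of_injOn (fun b => σ e * b)
      · intro b hb
        obtain ⟨h5, h6⟩ := Finset.mem_filter.1 (Finset.mem_coe.1 hb)
        obtain ⟨_, h7⟩ := Finset.mem_filter.1 h5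
        refine Finset.mem_coe.2 (Finset.mem_filter.2 ⟨h6, ?_⟩)
        rw [map_mul, hσ, h7]
      · intro b _ c _ h
        exact mul_left_cancel h
    omega
  by_contra hcon
  push Not at hcon
  have hkey : ∀ j, (L j).Nonempty → ε * ((L j).card : ℝ) < ∑ e ∈ E', (d e j : ℝ) := by
    intro j hj
    obtain ⟨e, he, h1⟩ := hcon (L j) hj
    have h2 : ({b : A' | b ∈ L j ∧ e * b ∉ L j}.ncard : ℝ) = d e j := by
      rw [hd, ← Set.ncard_coe_finset, Finset.coe_filter]
    rw [h2] at h1
    refine h1.trans_le ?_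
    exact Finset.single_le_sum (f := fun e => (d e j : ℝ)) (fun _ _ => Nat.cast_nonneg _) he
  have hlt : ε * ∑ j ∈ Finset.range B.card, ((L j).card : ℝ) <
      ∑ j ∈ Finset.range B.card, ∑ e ∈ E', (d e j : ℝ) := by
    rw [Finset.mul_sum]
    apply Finset.sum_lt_sum
    · intro j _
      rcases (L j).eq_empty_or_nonempty with h | h
      · rw [h, Finset.card_empty, Nat.cast_zero, mul_zero]
        exact Finset.sum_nonneg (fun _ _ => Nat.cast_nonneg _)
      · exact (hkey j h).le
    · have h1 : ∃ j ∈ Finset.range B.card, (L j).Nonempty := by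
        by_contra h2
        push Not at h2
        rw [Finset.sum_eq_zero (fun j hj => by rw [h2 j hj, Finset.card_empty])] at hsumL
        have := hB.card_pos
        omega
      obtain ⟨j, hj, hj'⟩ := h1
      exact ⟨j, hj, hkey j hj'⟩
  rw [Finset.sum_comm] at hlt
  have h1 : ∀ e ∈ E', ∑ j ∈ Finset.range B.card, (d e j : ℝ) ≤ ε / (E'.card + 1) * B.card := by
    intro e he
    have h2 := hBE (σ e) (Finset.mem_image_of_mem _ he)
    have h3 : ({b : A | b ∈ B ∧ σ e * b ∉ B}.ncard : ℝ) = (B.filter (fun b => σ e * b ∉ B)).card := by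
      rw [← Set.ncard_coe_finset, Finset.coe_filter]
    rw [h3] at h2
    refine le_trans ?_ h2
    exact_mod_cast hsumd e he
  have h2 := Finset.sum_le_sum h1
  rw [Finset.sum_const, nsmul_eq_mul] at h2
  have h3 : ∑ j ∈ Finset.range B.card, ((L j).card : ℝ) = B.card := by exact_mod_cast hsumL
  rw [h3] at hlt
  have h4 : (E'.card : ℝ) * (ε / (E'.card + 1) * B.card) ≤ ε * B.card := by
    rw [← mul_assoc, mul_div_assoc']
    apply mul_le_mul_of_nonneg_right _ (Nat.cast_nonneg _)
    rw [div_le_iff₀ (by positivity)]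
    nlinarith [hε.le, Nat.cast_nonneg (α := ℝ) E'.card]
  linarith

theorem nested_main {G : Type} [Group G] (G₀ : Subgroup G) [G₀.FiniteIndex]
    (χ : G₀ →* Multiplicative ℤ) (hχ : Function.Surjective χ) (hfg : χ.ker.FG)
    (M : Subgroup G₀) [hMn : M.Normal] (hA : FolnerCondition (G₀ ⧸ M))
    (H : ℕ → Subgroup G) (hH : Antitone H) (hn : ∀ k, (H k).Normal) (hf : ∀ k, (H k).FiniteIndex)
    (hsep : ∀ g : G₀, χ g ≠ 1 → ∃ k, g ∉ (H k).subgroupOf G₀ ⊔ M)
    (ε : ℝ) (hε : 0 < ε) :
    ∃ k₀, ∀ k ≥ k₀,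
      (∃ T : Finset G, Subgroup.closure (T : Set G) = H k ∧ (T.card : ℝ) ≤ ε * (H k).index) ∧
      ∀ (F : Type) [Field F], Module.Finite F (Additive (H k) →+ F) ∧
        (Module.finrank F (Additive (H k) →+ F) : ℝ) ≤ ε * (H k).index := by
  let N : Subgroup G₀ := ⨅ k, (H k).subgroupOf G₀ ⊔ M
  have hN : ∀ k, ((H k).subgroupOf G₀ ⊔ M).Normal := by
    intro k
    have := hn k
    infer_instance
  have hNn : N.Normal := Subgroup.normal_iInf_normal hN
  have hMN : M ≤ N := le_iInf fun k => le_sup_right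
  have hNχ : N ≤ χ.ker := by
    intro g hg
    by_contra h
    obtain ⟨k, hk⟩ := hsep g h
    exact hk ((iInf_le (fun k => (H k).subgroupOf G₀ ⊔ M) k : N ≤ _) hg)
  have hA' : FolnerCondition (G₀ ⧸ N) := by
    refine folner_quot (QuotientGroup.map M N (MonoidHom.id G₀) hMN) ?_ hA
    intro a
    obtain ⟨x, rfl⟩ := QuotientGroup.mk_surjective a
    exact ⟨(x : G₀ ⧸ M), rfl⟩
  refine rank_main G₀ χ hχ hfg N hNχ hA' H hn hf ?_ ε hε
  intro g hg
  have h1 : ∃ k₀, g ∉ (H k₀).subgroupOf G₀ ⊔ M := by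
    by_contra h
    push Not at h
    exact hg ((Subgroup.mem_iInf).2 h)
  obtain ⟨k₀, hk₀⟩ := h1
  refine ⟨k₀, fun k hk h => hk₀ ?_⟩
  have h2 : (H k).subgroupOf G₀ ⊔ N ≤ (H k₀).subgroupOf G₀ ⊔ M := by
    apply sup_le
    · refine le_trans ?_ le_sup_left
      intro x hx
      exact hH hk hx
    · exact iInf_le (fun k => (H k).subgroupOf G₀ ⊔ M) k₀
  exact h2 h

end Pool.Agent.H85.FPS
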