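import Pool.Agent.H85.FPS.Section

/-!
# Few generators
-/

set_option autoImplicit false

namespace Pool.Agent.H85.FPS

theorem gen_lemma {G : Type} [Group G] (K M : Subgroup G) [K.Normal] [K.FiniteIndex] [M.Normal]
    (χ : G →* Multiplicative ℤ) (hM : M ≤ χ.ker) (t : G) (ht : χ t = Multiplicative.ofAdd 1)
    (S : Finset G) (hS : Submonoid.closure (S : Set G) = χ.ker.toSubmonoid)
    (U : Finset G) (hU : ∀ u ∈ U, u ∈ χ.ker)
    (hprop : ∀ (F : Type) (f : G → F), t ∈ stab f → ∀ x : G,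
        (∀ u ∈ U, ∀ s ∈ S, f (s * (u * t⁻¹ * x)) = f (u * t⁻¹ * x)) →
        ∀ s ∈ S, f (s * x) = f x)
    (B B' : Finset (G ⧸ M)) (hne : B.Nonempty)
    (hB' : ∀ b ∈ B, b ∉ B' → ∀ u ∈ U, ((u * t⁻¹ : G) : G ⧸ M) * b ∈ B)
    (ε : ℝ) (hε : 0 ≤ ε) (hcard : (B'.card : ℝ) ≤ ε * B.card)
    (hinj : ∀ b ∈ B, ∀ c ∈ B, ∀ g : G, b⁻¹ * c = (g : G ⧸ M) → g ∈ K ⊔ M → b = c) :
    ∃ T : Finset G, Subgroup.closure (T : Set G) = K ∧
      (T.card : ℝ) ≤ K.index / orderOf (t : G ⧸ K) + S.card * (ε * K.index) := by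
  classical
  have hfinite : Finite (G ⧸ K) := inferInstance
  cases nonempty_fintype (G ⧸ K)
  -- the group is generated by `S` and `t`
  have hgen : ∀ H : Subgroup G, t ∈ H → (∀ s ∈ S, s ∈ H) → ∀ g : G, g ∈ H := by
    intro H h1 h2 g
    have h3 : χ.ker ≤ H := by
      intro n hn
      have h4 : n ∈ Submonoid.closure (S : Set G) := by rw [hS]; exact hn
      have h5 : Submonoid.closure (S : Set G) ≤ H.toSubmonoid := by
        rw [Submonoid.closure_le]
        exact h2
      exact h5 h4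
    set m : ℤ := Multiplicative.toAdd (χ g) with hm
    have h6 : (t ^ m)⁻¹ * g ∈ χ.ker := by
      rw [MonoidHom.mem_ker, map_mul, map_inv, map_zpow, ht, ← ofAdd_zsmul, smul_eq_mul,
        mul_one, hm, ofAdd_toAdd, inv_mul_cancel]
    have h7 := H.mul_mem (H.zpow_mem h1 m) (h3 h6)
    rwa [mul_inv_cancel_left] at h7
  obtain ⟨r, R, hr, hRK, hRcard, hRt⟩ := section_lemma K t
  let Q := G ⧸ (K ⊔ M)
  let π : G ⧸ K →* Q :=
    QuotientGroup.map K (K ⊔ M) (MonoidHom.id G) (fun _ h => Subgroup.mem_sup_left h)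
  let ρ : G ⧸ M →* Q :=
    QuotientGroup.map M (K ⊔ M) (MonoidHom.id G) (fun _ h => Subgroup.mem_sup_right h)
  have hπs : Function.Surjective π := by
    intro a
    obtain ⟨x, rfl⟩ := QuotientGroup.mk_surjective a
    exact ⟨(x : G ⧸ K), rfl⟩
  have hfQ : Finite Q := Finite.of_surjective π hπs
  cases nonempty_fintype Q
  have hρinj : ∀ b ∈ B, ∀ c ∈ B, ρ b = ρ c → b = c := by
    intro b hb c hc h
    obtain ⟨g, hg⟩ := QuotientGroup.mk_surjective (b⁻¹ * c)
    refine hinj b hb c hc g hg.symm ?_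
    have h1 : ρ (g : G ⧸ M) = 1 := by
      rw [hg, map_mul, map_inv, h, inv_mul_cancel]
    exact (QuotientGroup.eq_one_iff g).1 h1
  let χM : G ⧸ M →* Multiplicative ℤ := QuotientGroup.lift M χ (fun g hg => hM hg)
  let E : Finset (G ⧸ M) := U.image (fun u => ((u * t⁻¹ : G) : G ⧸ M))
  have hE : ∀ e ∈ E, χM e = Multiplicative.ofAdd (-1) := by
    intro e he
    obtain ⟨u, hu, rfl⟩ := Finset.mem_image.1 he
    change χ (u * t⁻¹) = Multiplicative.ofAdd (-1)
    have h6 : χ u = 1 := hU u hu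
    rw [map_mul, map_inv, h6, one_mul, ht, ofAdd_neg]
  have hB'' : ∀ b ∈ B, b ∉ B' → ∀ e ∈ E, e * b ∈ B := by
    intro b hb hb' e he
    obtain ⟨u, hu, rfl⟩ := Finset.mem_image.1 he
    exact hB' b hb hb' u hu
  obtain ⟨D, hD, hI⟩ := perc ρ χM E B B' hE hB'' hρinj ε hε hne hcard _ ∅ le_rfl
  rw [Finset.compl_empty] at hD
  -- the generating set
  let DV : Finset (G ⧸ K) := Finset.univ.filter (fun v => π v ∈ D)
  let h : (G ⧸ K) × G → G := fun p => (r ((p.2 : G ⧸ K) * p.1))⁻¹ * p.2 * r p.1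
  let T : Finset G := R ∪ (DV ×ˢ S).image h
  have hhK : ∀ p, h p ∈ K := by
    intro p
    change (r ((p.2 : G ⧸ K) * p.1))⁻¹ * p.2 * r p.1 ∈ K
    rw [← QuotientGroup.eq_one_iff, QuotientGroup.mk_mul, QuotientGroup.mk_mul,
      QuotientGroup.mk_inv, hr, hr, mul_assoc, inv_mul_cancel]
  set L : Subgroup G := Subgroup.closure (T : Set G) with hL
  have hLK : L ≤ K := by
    rw [hL, Subgroup.closure_le]
    intro x hx
    rcases Finset.mem_union.1 (Finset.mem_coe.1 hx) with hx | hx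
    · exact hRK x hx
    · obtain ⟨p, _, rfl⟩ := Finset.mem_image.1 hx
      exact hhK p
  let f : G → G ⧸ L := fun x => (((r (x : G ⧸ K))⁻¹ * x)⁻¹ : G)
  have hf : ∀ g x : G, f (g * x) = f x ↔ h ((x : G ⧸ K), g) ∈ L := by
    intro g x
    change (((((r ((g * x : G) : G ⧸ K))⁻¹ * (g * x))⁻¹ : G) : G ⧸ L) =
      ((((r (x : G ⧸ K))⁻¹ * x)⁻¹ : G) : G ⧸ L)) ↔ (r ((g : G ⧸ K) * (x : G ⧸ K)))⁻¹ * g * r (x : G ⧸ K) ∈ L
    rw [QuotientGroup.eq, inv_inv, QuotientGroup.mk_mul]
    have h1 : (r ((g : G ⧸ K) * (x : G ⧸ K)))⁻¹ * (g * x) * ((r (x : G ⧸ K))⁻¹ * x)⁻¹ =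
        (r ((g : G ⧸ K) * (x : G ⧸ K)))⁻¹ * g * r (x : G ⧸ K) := by
      group
    rw [h1]
  have htst : t ∈ stab f := by
    intro x
    rw [hf]
    have h1 : Subgroup.closure (R : Set G) ≤ L := by
      rw [hL]
      apply Subgroup.closure_mono
      intro x hx
      exact Finset.mem_coe.2 (Finset.mem_union_left _ (Finset.mem_coe.1 hx))
    exact h1 (hRt _)
  have hall := hI (fun q => ∀ x : G, (x : Q) = q → ∀ s ∈ S, f (s * x) = f x)
    (fun q hq => absurd hq (Finset.notMem_empty q))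
    (by
      intro q hq x hx s hs
      rw [hf, hL]
      apply Subgroup.subset_closure
      refine Finset.mem_coe.2 (Finset.mem_union_right _ (Finset.mem_image_of_mem _ ?_))
      refine Finset.mem_product.2 ⟨Finset.mem_filter.2 ⟨Finset.mem_univ _, ?_⟩, hs⟩
      change (x : Q) ∈ D
      rw [hx]
      exact hq)
    (by
      intro q hq x hx
      apply hprop _ f htst x
      intro u hu s hs
      refine hq ((u * t⁻¹ : G) : G ⧸ M) (Finset.mem_image_of_mem _ hu) (u * t⁻¹ * x) ?_ s hs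
      rw [QuotientGroup.mk_mul, hx]
      rfl)
  have hstab : ∀ g : G, g ∈ stab f :=
    hgen (stab f) htst (fun s hs x => hall (x : Q) x rfl s hs)
  have hKL : K ≤ L := by
    intro k hk
    have h1 : r 1 ∈ K := (QuotientGroup.eq_one_iff _).1 (hr 1)
    have h2 : r 1 * k * (r 1)⁻¹ ∈ K := K.mul_mem (K.mul_mem h1 hk) (K.inv_mem h1)
    have h3 := (hf (r 1 * k * (r 1)⁻¹) 1).1 (hstab _ 1)
    have h4 : h (((1 : G) : G ⧸ K), r 1 * k * (r 1)⁻¹) = k := by
      change (r ((((r 1 * k * (r 1)⁻¹ : G) : G ⧸ K)) * ((1 : G) : G ⧸ K)))⁻¹ * (r 1 * k * (r 1)⁻¹) *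
        r ((1 : G) : G ⧸ K) = k
      rw [(QuotientGroup.eq_one_iff _).2 h2, QuotientGroup.mk_one, mul_one]
      group
    rwa [h4] at h3
  refine ⟨T, le_antisymm hLK hKL, ?_⟩
  -- the count
  have hord : 0 < orderOf (t : G ⧸ K) := orderOf_pos _
  have e1 : (R.card : ℝ) ≤ K.index / orderOf (t : G ⧸ K) := by
    rw [le_div_iff₀ (by exact_mod_cast hord)]
    exact_mod_cast hRcard
  have e2 : (DV.card : ℝ) ≤ ε * K.index := by
    let c := (Finset.univ.filter (fun v => π v = 1)).card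
    have hc : ∀ q : Q, (Finset.univ.filter (fun v => π v = q)).card = c := by
      intro q
      exact MonoidHom.card_fiber_eq_of_mem_range π (hπs q) (hπs 1)
    have e3 : K.index = (Finset.univ : Finset Q).card * c := by
      rw [Subgroup.index, Nat.card_eq_fintype_card, ← Finset.card_univ,
        Finset.card_eq_sum_card_fiberwise (f := π) (t := Finset.univ)
          (fun v _ => Finset.mem_coe.2 (Finset.mem_univ _)),
        Finset.sum_congr rfl (fun q _ => hc q), Finset.sum_const, smul_eq_mul]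
    have e4 : DV.card = D.card * c := by
      rw [Finset.card_eq_sum_card_fiberwise (s := DV) (f := π) (t := D)
          (fun v hv => (Finset.mem_filter.1 (Finset.mem_coe.1 hv)).2)]
      rw [← smul_eq_mul, ← Finset.sum_const]
      apply Finset.sum_congr rfl
      intro q hq
      rw [← hc q]
      congr 1
      ext v
      simp only [DV, Finset.mem_filter, Finset.mem_univ, true_and]
      constructor
      · exact fun h => h.2
      · intro h
        exact ⟨by rw [h]; exact hq, h⟩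
    rw [e3, e4]
    push_cast
    calc (D.card : ℝ) * c ≤ ε * (Finset.univ : Finset Q).card * c :=
          mul_le_mul_of_nonneg_right hD (Nat.cast_nonneg _)
      _ = ε * ((Finset.univ : Finset Q).card * c) := by ring
  have e5 : T.card ≤ R.card + DV.card * S.card := by
    refine (Finset.card_union_le _ _).trans (Nat.add_le_add_left ?_ _)
    refine Finset.card_image_le.trans ?_
    rw [Finset.card_product]
  have e6 : (T.card : ℝ) ≤ R.card + DV.card * S.card := by exact_mod_cast e5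
  have e7 : (DV.card : ℝ) * S.card ≤ ε * K.index * S.card :=
    mul_le_mul_of_nonneg_right e2 (Nat.cast_nonneg _)
  linarith

end Pool.Agent.H85.FPS
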