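import Pool.Agent.H85.FPS.Core

/-!
# Small percolating sets in finite quotients of amenable groups
-/

set_option autoImplicit false

namespace Pool.Agent.H85.FPS

theorem sum_cnt {A Q : Type*} [Group A] [Group Q] [Fintype Q] [DecidableEq Q]
    (ρ : A →* Q) (C : Finset A) (J : Finset Q) :
    ∑ a : Q, (C.filter (fun b => ρ b * a ∉ J)).card = C.card * Jᶜ.card := by
  simp_rw [Finset.card_filter]
  rw [Finset.sum_comm]
  have h1 : ∀ b ∈ C, ∑ a : Q, (if ρ b * a ∉ J then 1 else 0) = Jᶜ.card := by
    intro b _
    rw [← Finset.card_filter]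
    refine Finset.card_bij (fun a _ => ρ b * a) ?_ ?_ ?_
    · intro a ha
      exact Finset.mem_compl.2 (Finset.mem_filter.1 ha).2
    · intro a _ c _ h
      exact mul_left_cancel h
    · intro c hc
      refine ⟨(ρ b)⁻¹ * c, ?_, mul_inv_cancel_left _ _⟩
      rw [Finset.mem_filter, mul_inv_cancel_left]
      exact ⟨Finset.mem_univ _, Finset.mem_compl.1 hc⟩
  rw [Finset.sum_congr rfl h1, Finset.sum_const, smul_eq_mul]

/-- small percolating sets -/
theorem perc {A Q : Type*} [Group A] [Group Q] [Fintype Q] [DecidableEq Q]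
    (ρ : A →* Q) (χ : A →* Multiplicative ℤ)
    (E B B' : Finset A) (hE : ∀ e ∈ E, χ e = Multiplicative.ofAdd (-1))
    (hB' : ∀ b ∈ B, b ∉ B' → ∀ e ∈ E, e * b ∈ B)
    (hinj : ∀ b ∈ B, ∀ c ∈ B, ρ b = ρ c → b = c)
    (ε : ℝ) (hε : 0 ≤ ε) (hne : B.Nonempty) (hcard : (B'.card : ℝ) ≤ ε * B.card) (n : ℕ)
    (J : Finset Q) (hJ : Jᶜ.card ≤ n) :
    ∃ D : Finset Q, (D.card : ℝ) ≤ ε * Jᶜ.card ∧
      ∀ I : Q → Prop, (∀ q ∈ J, I q) → (∀ q ∈ D, I q) →
        (∀ q, (∀ e ∈ E, I (ρ e * q)) → I q) → ∀ q, I q := by
  classical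
  induction n generalizing J with
  | zero =>
    refine ⟨∅, ?_, ?_⟩
    · rw [Finset.card_empty, Nat.cast_zero]
      positivity
    · intro I h1 _ _ q
      apply h1
      have h2 : Jᶜ = ∅ := Finset.card_eq_zero.1 (Nat.le_zero.1 hJ)
      by_contra h3
      have h4 : q ∈ Jᶜ := Finset.mem_compl.2 h3
      rw [h2] at h4
      exact absurd h4 (Finset.notMem_empty q)
  | succ n ih =>
    by_cases hempty : Jᶜ.card = 0
    · exact ih J (by omega)
    have hpos : 0 < Jᶜ.card := Nat.pos_of_ne_zero hempty
    -- a good translate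
    have hex : ∃ a : Q, 0 < (B.filter (fun b => ρ b * a ∉ J)).card ∧
        ((B'.filter (fun b => ρ b * a ∉ J)).card : ℝ) ≤
          ε * (B.filter (fun b => ρ b * a ∉ J)).card := by
      by_contra hcon
      push Not at hcon
      have h1 : ∀ a ∈ (Finset.univ : Finset Q),
          ε * ((B.filter (fun b => ρ b * a ∉ J)).card : ℝ) ≤
          ((B'.filter (fun b => ρ b * a ∉ J)).card : ℝ) := by
        intro a _
        rcases Nat.eq_zero_or_pos (B.filter (fun b => ρ b * a ∉ J)).card with h | h
        · rw [h, Nat.cast_zero, mul_zero]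
          positivity
        · exact (hcon a h).le
      have h2 : ∃ a ∈ (Finset.univ : Finset Q),
          ε * ((B.filter (fun b => ρ b * a ∉ J)).card : ℝ) <
          ((B'.filter (fun b => ρ b * a ∉ J)).card : ℝ) := by
        by_contra h3
        push Not at h3
        have h4 : ∀ a : Q, (B.filter (fun b => ρ b * a ∉ J)).card = 0 := by
          intro a
          by_contra h5
          exact absurd (h3 a (Finset.mem_univ a)) (not_le.2 (hcon a (Nat.pos_of_ne_zero h5)))
        have h5 := sum_cnt ρ B J
        rw [Finset.sum_eq_zero (fun a _ => h4 a)] at h5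
        have h6 : 0 < B.card * Jᶜ.card := Nat.mul_pos hne.card_pos hpos
        omega
      have h3 := Finset.sum_lt_sum h1 h2
      rw [← Finset.mul_sum] at h3
      have h4 : ∑ a : Q, ((B.filter (fun b => ρ b * a ∉ J)).card : ℝ) = B.card * Jᶜ.card := by
        exact_mod_cast sum_cnt ρ B J
      have h5 : ∑ a : Q, ((B'.filter (fun b => ρ b * a ∉ J)).card : ℝ) = B'.card * Jᶜ.card := by
        exact_mod_cast sum_cnt ρ B' J
      rw [h4, h5] at h3
      have h6 : (B'.card : ℝ) * Jᶜ.card ≤ ε * B.card * Jᶜ.card :=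
        mul_le_mul_of_nonneg_right hcard (Nat.cast_nonneg _)
      linarith
    obtain ⟨a, ha1, ha2⟩ := hex
    set J₁ : Finset Q := J ∪ B.image (fun b => ρ b * a) with hJ₁
    have hcardJ : J₁ᶜ.card + (B.filter (fun b => ρ b * a ∉ J)).card ≤ Jᶜ.card := by
      have e1 : ((B.filter (fun b => ρ b * a ∉ J)).image (fun b => ρ b * a)).card =
          (B.filter (fun b => ρ b * a ∉ J)).card := by
        apply Finset.card_image_of_injOn
        intro b hb c hc h
        exact hinj b (Finset.mem_filter.1 hb).1 c (Finset.mem_filter.1 hc).1 (mul_right_cancel h)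
      rw [← e1, ← Finset.card_union_of_disjoint]
      · apply Finset.card_le_card
        intro q hq
        rw [Finset.mem_compl]
        rcases Finset.mem_union.1 hq with hq | hq
        · rw [Finset.mem_compl, hJ₁, Finset.mem_union] at hq
          exact fun h => hq (Or.inl h)
        · obtain ⟨b, hb, rfl⟩ := Finset.mem_image.1 hq
          exact (Finset.mem_filter.1 hb).2
      · rw [Finset.disjoint_left]
        intro q hq hq'
        rw [Finset.mem_compl, hJ₁, Finset.mem_union] at hq
        obtain ⟨b, hb, rfl⟩ := Finset.mem_image.1 hq'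
        exact hq (Or.inr (Finset.mem_image_of_mem _ (Finset.mem_filter.1 hb).1))
    obtain ⟨D₂, hD₂, hI₂⟩ := ih J₁ (by omega)
    refine ⟨(B'.filter (fun b => ρ b * a ∉ J)).image (fun b => ρ b * a) ∪ D₂, ?_, ?_⟩
    · have e1 : (((B'.filter (fun b => ρ b * a ∉ J)).image (fun b => ρ b * a) ∪ D₂).card : ℝ) ≤
          (B'.filter (fun b => ρ b * a ∉ J)).card + D₂.card := by
        have := (Finset.card_union_le ((B'.filter (fun b => ρ b * a ∉ J)).image (fun b => ρ b * a))
          D₂).trans (Nat.add_le_add_right Finset.card_image_le _)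
        exact_mod_cast this
      have e2 : (J₁ᶜ.card : ℝ) + (B.filter (fun b => ρ b * a ∉ J)).card ≤ Jᶜ.card := by
        exact_mod_cast hcardJ
      have e3 := mul_le_mul_of_nonneg_left e2 hε
      rw [mul_add] at e3
      linarith
    · intro I h1 h2 h3
      apply hI₂ I
      · intro q hq
        rw [hJ₁, Finset.mem_union, Finset.mem_image] at hq
        rcases hq with hq | ⟨b, hb, rfl⟩
        · exact h1 q hq
        · by_contra hcon
          let Bad : Finset A := B.filter (fun b => ¬ I (ρ b * a))
          have hBad : Bad.Nonempty := ⟨b, Finset.mem_filter.2 ⟨hb, hcon⟩⟩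
          obtain ⟨c, hc, hmin⟩ := Finset.exists_min_image Bad
            (fun b => Multiplicative.toAdd (χ b)) hBad
          obtain ⟨hcB, hcI⟩ := Finset.mem_filter.1 hc
          have hcB' : c ∉ B' := by
            intro h
            apply hcI
            by_cases h4 : ρ c * a ∈ J
            · exact h1 _ h4
            · exact h2 _ (Finset.mem_union_left _ (Finset.mem_image_of_mem _
                (Finset.mem_filter.2 ⟨h, h4⟩)))
          apply hcI
          apply h3
          intro e he
          have h5 := hB' c hcB hcB' e he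
          by_contra h6
          have h7 : e * c ∈ Bad := by
            refine Finset.mem_filter.2 ⟨h5, ?_⟩
            rwa [map_mul, mul_assoc]
          have h8 := hmin _ h7
          rw [map_mul, toAdd_mul, hE e he, toAdd_ofAdd] at h8
          omega
      · intro q hq
        exact h2 q (Finset.mem_union_right _ hq)
      · exact h3

end Pool.Agent.H85.FPS
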