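import Pool.Agent.H85.FPS.Gen

/-!
# Rank gradient along sequences of normal subgroups that see an amenable quotient
-/

set_option autoImplicit false

namespace Pool.Agent.H85.FPS

open Filter

/-- Folner's condition -/
def FolnerCondition (A : Type) [Group A] : Prop :=
  ∀ (E : Finset A) (ε : ℝ), 0 < ε → ∃ B : Finset A, B.Nonempty ∧
    ∀ e ∈ E, ({b : A | b ∈ B ∧ e * b ∉ B}.ncard : ℝ) ≤ ε * B.card

theorem rank_index_large {G : Type} [Group G] (χ : G →* Multiplicative ℤ) (t : G)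
    (ht : χ t = Multiplicative.ofAdd 1) (M : Subgroup G) (hM : M ≤ χ.ker)
    (K : ℕ → Subgroup G) (hn : ∀ k, (K k).Normal) (hf : ∀ k, (K k).FiniteIndex)
    (hsep : ∀ g : G, g ∉ M → ∀ᶠ k in atTop, g ∉ K k ⊔ M) (m : ℕ) :
    ∀ᶠ k in atTop, m ≤ orderOf (t : G ⧸ K k) ∧ m ≤ (K k).index := by
  have h1 : ∀ i : Fin m, ∀ᶠ k in atTop, (i : ℕ) ≠ 0 → t ^ (i : ℕ) ∉ K k ⊔ M := by
    intro i
    by_cases h0 : (i : ℕ) = 0
    · exact Eventually.of_forall (fun k h => absurd h0 h)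
    · have h2 : t ^ (i : ℕ) ∉ M := by
        intro h
        have h3 : χ (t ^ (i : ℕ)) = 1 := hM h
        rw [map_pow, ht, ← ofAdd_nsmul, ofAdd_eq_one] at h3
        simp only [nsmul_eq_mul, mul_one, Nat.cast_eq_zero] at h3
        exact h0 h3
      exact (hsep _ h2).mono (fun k hk _ => hk)
  have h5 : ∀ᶠ k in atTop, ∀ i : Fin m, (i : ℕ) ≠ 0 → t ^ (i : ℕ) ∉ K k ⊔ M :=
    eventually_all.2 h1
  refine h5.mono fun k hk => ?_
  have := hf k
  have := hn k
  have hfin : Finite (G ⧸ K k) := inferInstance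
  have h6 : 0 < orderOf (t : G ⧸ K k) := orderOf_pos _
  have h7 : m ≤ orderOf (t : G ⧸ K k) := by
    by_contra hlt
    rw [not_le] at hlt
    apply hk ⟨orderOf (t : G ⧸ K k), hlt⟩ h6.ne'
    apply Subgroup.mem_sup_left
    rw [← QuotientGroup.eq_one_iff, QuotientGroup.mk_pow]
    exact pow_orderOf_eq_one _
  refine ⟨h7, h7.trans ?_⟩
  rw [Subgroup.index]
  exact Nat.le_of_dvd Nat.card_pos (orderOf_dvd_natCard _)

theorem rank_fibred {G : Type} [Group G] (χ : G →* Multiplicative ℤ) (hχ : Function.Surjective χ)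
    (hfg : χ.ker.FG) (M : Subgroup G) [M.Normal] (hM : M ≤ χ.ker)
    (hA : FolnerCondition (G ⧸ M))
    (K : ℕ → Subgroup G) (hn : ∀ k, (K k).Normal) (hf : ∀ k, (K k).FiniteIndex)
    (hsep : ∀ g : G, g ∉ M → ∀ᶠ k in atTop, g ∉ K k ⊔ M) (ε : ℝ) (hε : 0 < ε) :
    ∀ᶠ k in atTop, ∃ T : Finset G, Subgroup.closure (T : Set G) = K k ∧
      (T.card : ℝ) ≤ ε * (K k).index := by
  classical
  obtain ⟨t, ht⟩ := hχ (Multiplicative.ofAdd 1)
  obtain ⟨S, hS⟩ := (Subgroup.fg_iff_submonoid_fg _).1 hfg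
  obtain ⟨U, hU, hprop⟩ := prop_lemma χ.ker S t hS
  set ε₁ : ℝ := ε / (2 * ((S.card + 1) * (U.card + 1))) with hε₁
  have hε₁0 : 0 < ε₁ := by positivity
  obtain ⟨B, hB, hBE⟩ := hA (U.image (fun u => ((u * t⁻¹ : G) : G ⧸ M))) ε₁ hε₁0
  let B' : Finset (G ⧸ M) := B.filter (fun b => ∃ u ∈ U, ((u * t⁻¹ : G) : G ⧸ M) * b ∉ B)
  have hB' : ∀ b ∈ B, b ∉ B' → ∀ u ∈ U, ((u * t⁻¹ : G) : G ⧸ M) * b ∈ B := by
    intro b hb hb' u hu
    by_contra h
    exact hb' (Finset.mem_filter.2 ⟨hb, u, hu, h⟩)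
  have hcard : (B'.card : ℝ) ≤ (U.card * ε₁) * B.card := by
    have e1 : B' ⊆ U.biUnion (fun u => B.filter (fun b => ((u * t⁻¹ : G) : G ⧸ M) * b ∉ B)) := by
      intro b hb
      obtain ⟨h1, u, hu, h2⟩ := Finset.mem_filter.1 hb
      exact Finset.mem_biUnion.2 ⟨u, hu, Finset.mem_filter.2 ⟨h1, h2⟩⟩
    have e2 : B'.card ≤ ∑ u ∈ U, (B.filter (fun b => ((u * t⁻¹ : G) : G ⧸ M) * b ∉ B)).card :=
      (Finset.card_le_card e1).trans Finset.card_biUnion_le
    have e3 : ∀ u ∈ U, ((B.filter (fun b => ((u * t⁻¹ : G) : G ⧸ M) * b ∉ B)).card : ℝ) ≤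
        ε₁ * B.card := by
      intro u hu
      refine le_trans (le_of_eq ?_) (hBE _ (Finset.mem_image_of_mem _ hu))
      rw [← Set.ncard_coe_finset, Finset.coe_filter]
    have e4 := Finset.sum_le_sum e3
    rw [Finset.sum_const, nsmul_eq_mul] at e4
    rw [mul_assoc]
    refine le_trans ?_ e4
    exact_mod_cast e2
  have hpair : ∀ b : B, ∀ c : B, ∀ᶠ k in atTop, ∀ g : G,
      (b : G ⧸ M)⁻¹ * (c : G ⧸ M) = (g : G ⧸ M) → g ∈ K k ⊔ M → (b : G ⧸ M) = c := by
    intro b c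
    obtain ⟨g₀, hg₀⟩ := QuotientGroup.mk_surjective ((b : G ⧸ M)⁻¹ * (c : G ⧸ M))
    by_cases h : (b : G ⧸ M) = c
    · exact Eventually.of_forall (fun k g _ _ => h)
    · have h1 : g₀ ∉ M := by
        intro h2
        have h3 : (g₀ : G ⧸ M) = 1 := (QuotientGroup.eq_one_iff g₀).2 h2
        rw [hg₀, inv_mul_eq_one] at h3
        exact h h3
      refine (hsep g₀ h1).mono fun k hk g hg hgk => ?_
      exfalso
      apply hk
      have h4 : g⁻¹ * g₀ ∈ M := by
        rw [← QuotientGroup.eq, hg₀, hg]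
      have h5 := (K k ⊔ M).mul_mem hgk (Subgroup.mem_sup_right h4)
      rwa [mul_inv_cancel_left] at h5
  have hpairs : ∀ᶠ k in atTop, ∀ b : B, ∀ c : B, ∀ g : G,
      (b : G ⧸ M)⁻¹ * (c : G ⧸ M) = (g : G ⧸ M) → g ∈ K k ⊔ M → (b : G ⧸ M) = c :=
    eventually_all.2 (fun b => eventually_all.2 (fun c => hpair b c))
  obtain ⟨m, hm⟩ := exists_nat_gt (2 / ε)
  have hord := rank_index_large χ t ht M hM K hn hf hsep m
  refine (hpairs.and hord).mono fun k hk => ?_
  have := hn k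
  have := hf k
  obtain ⟨T, hT, hTcard⟩ := gen_lemma (K k) M χ hM t ht S hS U hU
    (fun F f hf x h s hs => hprop F f hf x h s hs) B B' hB hB' (U.card * ε₁) (by positivity) hcard
    (fun b hb c hc g hg hgk => hk.1 ⟨b, hb⟩ ⟨c, hc⟩ g hg hgk)
  refine ⟨T, hT, hTcard.trans ?_⟩
  have hm0 : (0 : ℝ) < m := lt_trans (by positivity) hm
  have h1 : (m : ℝ) ≤ orderOf (t : G ⧸ K k) := by exact_mod_cast hk.2.1
  have h2 : ((K k).index : ℝ) / orderOf (t : G ⧸ K k) ≤ (K k).index / m :=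
    div_le_div_of_nonneg_left (Nat.cast_nonneg _) hm0 h1
  have h3 : ((K k).index : ℝ) / m ≤ ε / 2 * (K k).index := by
    rw [div_le_iff₀ hm0]
    have h4 : 2 < m * ε := by
      rwa [div_lt_iff₀ hε] at hm
    nlinarith [Nat.cast_nonneg (α := ℝ) (K k).index]
  have h6 : (S.card : ℝ) * (U.card * ε₁) ≤ ε / 2 := by
    rw [hε₁, mul_div_assoc', mul_div_assoc', div_le_iff₀ (by positivity)]
    nlinarith [hε.le, Nat.cast_nonneg (α := ℝ) S.card, Nat.cast_nonneg (α := ℝ) U.card,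
      mul_nonneg hε.le (Nat.cast_nonneg (α := ℝ) S.card),
      mul_nonneg hε.le (Nat.cast_nonneg (α := ℝ) U.card)]
  have h7 : (S.card : ℝ) * (U.card * ε₁ * (K k).index) ≤ ε / 2 * (K k).index := by
    rw [← mul_assoc]
    exact mul_le_mul_of_nonneg_right h6 (Nat.cast_nonneg _)
  linarith

/-- passage to a finite index subgroup -/
theorem gen_le {G : Type} [Group G] (H G₀ : Subgroup G) [G₀.FiniteIndex]
    (T : Finset G₀) (hT : Subgroup.closure (T : Set G₀) = H.subgroupOf G₀) :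
    ∃ T' : Finset G, Subgroup.closure (T' : Set G) = H ∧ T'.card ≤ T.card + G₀.index := by
  classical
  have hfinite : Finite (G ⧸ G₀) := inferInstance
  cases nonempty_fintype (G ⧸ G₀)
  let rep : (G ⧸ G₀) → H := fun c => if h : ∃ x : H, ((x : G) : G ⧸ G₀) = c then h.choose else 1
  let T' : Finset G := T.image (fun x : G₀ => (x : G)) ∪ Finset.univ.image (fun c => (rep c : G))
  refine ⟨T', le_antisymm ?_ ?_, ?_⟩
  · rw [Subgroup.closure_le]
    intro x hx
    rcases Finset.mem_union.1 (Finset.mem_coe.1 hx) with hx | hx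
    · obtain ⟨y, hy, rfl⟩ := Finset.mem_image.1 hx
      have h1 : y ∈ Subgroup.closure (T : Set G₀) := Subgroup.subset_closure hy
      rw [hT] at h1
      exact h1
    · obtain ⟨c, _, rfl⟩ := Finset.mem_image.1 hx
      exact (rep c).2
  · have h0 : (H.subgroupOf G₀).map G₀.subtype ≤ Subgroup.closure (T' : Set G) := by
      rw [← hT, MonoidHom.map_closure, Subgroup.closure_le]
      rintro _ ⟨y, hy, rfl⟩
      apply Subgroup.subset_closure
      exact Finset.mem_coe.2 (Finset.mem_union_left _ (Finset.mem_image_of_mem _ hy))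
    intro y hy
    have h3 : ∃ z : H, ((z : G) : G ⧸ G₀) = (y : G ⧸ G₀) := ⟨⟨y, hy⟩, rfl⟩
    have h4 : rep (y : G ⧸ G₀) = h3.choose := dif_pos h3
    have h5 : ((rep (y : G ⧸ G₀) : G) : G ⧸ G₀) = (y : G ⧸ G₀) := by
      rw [h4]
      exact h3.choose_spec
    have h6 : (rep (y : G ⧸ G₀) : G)⁻¹ * y ∈ G₀ := QuotientGroup.eq.1 h5
    have h7 : (rep (y : G ⧸ G₀) : G)⁻¹ * y ∈ Subgroup.closure (T' : Set G) := by
      apply h0
      refine ⟨⟨(rep (y : G ⧸ G₀) : G)⁻¹ * y, h6⟩, ?_, rfl⟩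
      exact H.mul_mem (H.inv_mem (rep _).2) hy
    have h8 : (rep (y : G ⧸ G₀) : G) ∈ Subgroup.closure (T' : Set G) := by
      apply Subgroup.subset_closure
      exact Finset.mem_coe.2 (Finset.mem_union_right _
        (Finset.mem_image_of_mem _ (Finset.mem_univ _)))
    have h9 := Subgroup.mul_mem _ h8 h7
    rwa [mul_inv_cancel_left] at h9
  · refine (Finset.card_union_le _ _).trans (Nat.add_le_add Finset.card_image_le ?_)
    refine Finset.card_image_le.trans (le_of_eq ?_)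
    rw [Subgroup.index, Nat.card_eq_fintype_card, Finset.card_univ]

/-- the number of generators bounds the first Betti number over every field -/
theorem betti_le {G : Type} [Group G] (H : Subgroup G) (T : Finset G)
    (hT : Subgroup.closure (T : Set G) = H) (F : Type) [Field F] :
    Module.Finite F (Additive H →+ F) ∧ Module.finrank F (Additive H →+ F) ≤ T.card := by
  classical
  have hTH : ∀ x : T, (x : G) ∈ H := by
    intro x
    rw [← hT]
    exact Subgroup.subset_closure x.2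
  let φ : (Additive H →+ F) →ₗ[F] (T → F) :=
    { toFun := fun f x => f (Additive.ofMul ⟨(x : G), hTH x⟩)
      map_add' := fun _ _ => rfl
      map_smul' := fun _ _ => rfl }
  have hinj : Function.Injective φ := by
    rw [injective_iff_map_eq_zero]
    intro f hf
    have h1 : ∀ x : T, f (Additive.ofMul ⟨(x : G), hTH x⟩) = 0 := fun x => congrFun hf x
    let g : H →* Multiplicative F := AddMonoidHom.toMultiplicativeRight f
    have h2 : Subgroup.closure (T : Set G) ≤ g.ker.map H.subtype := by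
      rw [Subgroup.closure_le]
      intro x hx
      refine ⟨⟨x, hTH ⟨x, hx⟩⟩, ?_, rfl⟩
      exact h1 ⟨x, hx⟩
    refine AddMonoidHom.ext fun y => ?_
    have h3 : ((Additive.toMul y : H) : G) ∈ Subgroup.closure (T : Set G) := by
      rw [hT]
      exact (Additive.toMul y : H).2
    obtain ⟨z, hz, hzy⟩ := h2 h3
    have h4 : z = Additive.toMul y := Subtype.ext hzy
    rw [h4] at hz
    exact hz
  refine ⟨Module.Finite.of_injective φ hinj, ?_⟩
  have h1 := LinearMap.finrank_le_finrank_of_injective hinj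
  rwa [Module.finrank_fintype_fun_eq_card, Fintype.card_coe] at h1

theorem rank_main {G : Type} [Group G] (G₀ : Subgroup G) [G₀.FiniteIndex]
    (χ : G₀ →* Multiplicative ℤ) (hχ : Function.Surjective χ) (hfg : χ.ker.FG)
    (M : Subgroup G₀) [M.Normal] (hM : M ≤ χ.ker) (hA : FolnerCondition (G₀ ⧸ M))
    (H : ℕ → Subgroup G) (hn : ∀ k, (H k).Normal) (hf : ∀ k, (H k).FiniteIndex)
    (hsep : ∀ g : G₀, g ∉ M → ∃ k₀, ∀ k ≥ k₀, g ∉ (H k).subgroupOf G₀ ⊔ M)
    (ε : ℝ) (hε : 0 < ε) :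
    ∃ k₀, ∀ k ≥ k₀,
      (∃ T : Finset G, Subgroup.closure (T : Set G) = H k ∧ (T.card : ℝ) ≤ ε * (H k).index) ∧
      ∀ (F : Type) [Field F], Module.Finite F (Additive (H k) →+ F) ∧
        (Module.finrank F (Additive (H k) →+ F) : ℝ) ≤ ε * (H k).index := by
  obtain ⟨t, ht⟩ := hχ (Multiplicative.ofAdd 1)
  have hsep' : ∀ g : G₀, g ∉ M → ∀ᶠ k in atTop, g ∉ (H k).subgroupOf G₀ ⊔ M := by
    intro g hg
    rw [eventually_atTop]
    exact hsep g hg
  have hf' : ∀ k, ((H k).subgroupOf G₀).FiniteIndex := by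
    intro k
    have := hf k
    infer_instance
  have hn' : ∀ k, ((H k).subgroupOf G₀).Normal := by
    intro k
    have := hn k
    infer_instance
  obtain ⟨m, hm⟩ := exists_nat_gt (2 * (G₀.index : ℝ) / ε)
  have h1 := rank_index_large χ t ht M hM (fun k => (H k).subgroupOf G₀) hn' hf' hsep' m
  have h2 := rank_fibred χ hχ hfg M hM hA (fun k => (H k).subgroupOf G₀) hn' hf' hsep' (ε / 2)
    (half_pos hε)
  have h3 := h1.and h2
  rw [eventually_atTop] at h3
  obtain ⟨k₀, hk₀⟩ := h3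
  refine ⟨k₀, fun k hk => ?_⟩
  obtain ⟨⟨_, h4⟩, T, hT, hTc⟩ := hk₀ k hk
  obtain ⟨T', hT', hTc'⟩ := gen_le (H k) G₀ T hT
  have h10 : ((H k).subgroupOf G₀).index ≤ (H k).index := by
    have := hn k
    have := hf k
    exact Nat.le_of_dvd (Nat.pos_of_ne_zero Subgroup.FiniteIndex.index_ne_zero)
      (Subgroup.relIndex_dvd_index_of_normal (H k) G₀)
  have h11 : (T'.card : ℝ) ≤ T.card + G₀.index := by exact_mod_cast hTc'
  have h12 : (((H k).subgroupOf G₀).index : ℝ) ≤ (H k).index := by exact_mod_cast h10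
  have h13 : (m : ℝ) ≤ ((H k).subgroupOf G₀).index := by exact_mod_cast h4
  have h14 : 2 * (G₀.index : ℝ) < ε * m := by
    rw [div_lt_iff₀ hε] at hm
    linarith
  have h15 : ε * m ≤ ε * (H k).index := mul_le_mul_of_nonneg_left (h13.trans h12) hε.le
  have h16 : ε / 2 * ((H k).subgroupOf G₀).index ≤ ε / 2 * (H k).index :=
    mul_le_mul_of_nonneg_left h12 (half_pos hε).le
  have h17 : (T'.card : ℝ) ≤ ε * (H k).index := by linarith
  refine ⟨⟨T', hT', h17⟩, fun F _ => ?_⟩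
  obtain ⟨h18, h19⟩ := betti_le (H k) T' hT' F
  refine ⟨h18, le_trans ?_ h17⟩
  exact_mod_cast h19

end Pool.Agent.H85.FPS
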