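import Pool.Agent.H85.FPS.Perc

/-!
# A section adapted to one element
-/

set_option autoImplicit false

namespace Pool.Agent.H85.FPS

theorem section_lemma {G : Type*} [Group G] (K : Subgroup G) [K.Normal] [K.FiniteIndex] (t : G) :
    ∃ (r : G ⧸ K → G) (R : Finset G), (∀ v, (r v : G ⧸ K) = v) ∧ (∀ x ∈ R, x ∈ K) ∧
      R.card * orderOf (t : G ⧸ K) ≤ K.index ∧
      ∀ v, (r ((t : G ⧸ K) * v))⁻¹ * t * r v ∈ Subgroup.closure (R : Set G) := by
  classical
  have hfinite : Finite (G ⧸ K) := inferInstance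
  cases nonempty_fintype (G ⧸ K)
  set τ : G ⧸ K := (t : G ⧸ K) with hτ
  set m := orderOf τ with hm
  have hm0 : 0 < m := orderOf_pos τ
  let b : G ⧸ K → G ⧸ K := fun v => (Quotient.mk (QuotientGroup.rightRel (Subgroup.zpowers τ)) v).out
  have hb1 : ∀ v, v * (b v)⁻¹ ∈ Subgroup.zpowers τ := by
    intro v
    have h1 : (QuotientGroup.rightRel (Subgroup.zpowers τ)) (b v) v :=
      Quotient.mk_out (s := QuotientGroup.rightRel (Subgroup.zpowers τ)) v
    exact QuotientGroup.rightRel_apply.1 h1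
  have hb2 : ∀ v w, v * w⁻¹ ∈ Subgroup.zpowers τ → b v = b w := by
    intro v w h
    have h1 : Quotient.mk (QuotientGroup.rightRel (Subgroup.zpowers τ)) w =
        Quotient.mk (QuotientGroup.rightRel (Subgroup.zpowers τ)) v :=
      Quotient.sound (QuotientGroup.rightRel_apply.2 h)
    change (Quotient.mk (QuotientGroup.rightRel (Subgroup.zpowers τ)) v).out =
      (Quotient.mk (QuotientGroup.rightRel (Subgroup.zpowers τ)) w).out
    rw [h1]
  have hb3 : ∀ v, b (τ * v) = b v := by
    intro v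
    apply hb2
    rw [mul_inv_cancel_right]
    exact Subgroup.mem_zpowers τ
  have hb4 : ∀ v, b (b v) = b v := by
    intro v
    apply Eq.symm
    apply hb2
    exact hb1 v
  have hb5 : ∀ (j : ℕ) v, b (τ ^ j * v) = b v := by
    intro j v
    apply hb2
    rw [mul_inv_cancel_right]
    exact Subgroup.npow_mem_zpowers τ j
  have hi : ∀ v, ∃ i, i < m ∧ τ ^ i = v * (b v)⁻¹ := by
    intro v
    have h1 := mem_zpowers_iff_mem_range_orderOf.1 (hb1 v)
    obtain ⟨i, hi, h2⟩ := Finset.mem_image.1 h1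
    exact ⟨i, Finset.mem_range.1 hi, h2⟩
  choose i hi1 hi2 using hi
  let r : G ⧸ K → G := fun v => t ^ i v * (b v).out
  have hr : ∀ v, (r v : G ⧸ K) = v := by
    intro v
    change ((t ^ i v * (b v).out : G) : G ⧸ K) = v
    rw [QuotientGroup.mk_mul, QuotientGroup.mk_pow, QuotientGroup.out_eq', ← hτ, hi2,
      inv_mul_cancel_right]
  let R : Finset G := (Finset.univ.image b).image (fun w => (w.out)⁻¹ * t ^ m * w.out)
  refine ⟨r, R, hr, ?_, ?_, ?_⟩
  · intro x hx
    obtain ⟨w, _, rfl⟩ := Finset.mem_image.1 hx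
    rw [← QuotientGroup.eq_one_iff, QuotientGroup.mk_mul, QuotientGroup.mk_mul,
      QuotientGroup.mk_inv, QuotientGroup.mk_pow, ← hτ, hm, pow_orderOf_eq_one, mul_one,
      inv_mul_cancel]
  · have h1 : R.card ≤ (Finset.univ.image b).card := Finset.card_image_le
    have h2 : (Finset.univ.image b).card * m ≤ K.index := by
      rw [Subgroup.index, Nat.card_eq_fintype_card, ← Finset.card_range m, ← Finset.card_product,
        ← Finset.card_univ]
      apply Finset.card_le_card_of_injOn (fun p => τ ^ p.2 * p.1) (fun p _ => Finset.mem_coe.2 (Finset.mem_univ _))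
      rintro ⟨w, j⟩ hw ⟨w', j'⟩ hw' h
      simp only at h
      rw [Finset.mem_coe, Finset.mem_product, Finset.mem_image, Finset.mem_range] at hw hw'
      obtain ⟨⟨v, _, hv⟩, hj⟩ := hw
      obtain ⟨⟨v', _, hv'⟩, hj'⟩ := hw'
      simp only at hv hv' hj hj'
      have h3 : w = w' := by
        have h4 := congrArg b h
        rw [hb5, hb5, ← hv, ← hv', hb4, hb4, hv, hv'] at h4
        exact h4
      subst h3
      have h5 := pow_injOn_Iio_orderOf (x := τ) (Set.mem_Iio.2 hj) (Set.mem_Iio.2 hj')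
        (mul_right_cancel h)
      rw [h5]
    exact (Nat.mul_le_mul_right _ h1).trans h2
  · intro v
    have h1 : τ ^ i (τ * v) = τ ^ (i v + 1) := by
      rw [hi2, hb3, pow_succ', hi2, mul_assoc]
    change (t ^ i (τ * v) * (b (τ * v)).out)⁻¹ * t * (t ^ i v * (b v).out) ∈ _
    rw [hb3]
    have h0 : (t ^ i (τ * v) * (b v).out)⁻¹ * t * (t ^ i v * (b v).out) =
        ((b v).out)⁻¹ * ((t ^ i (τ * v))⁻¹ * t ^ (i v + 1)) * (b v).out := by
      rw [pow_succ']
      group
    rw [h0]
    rcases Nat.lt_or_ge (i v + 1) m with h2 | h2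
    · have h3 := pow_injOn_Iio_orderOf (x := τ) (Set.mem_Iio.2 (hi1 (τ * v))) (Set.mem_Iio.2 h2) h1
      rw [h3, inv_mul_cancel, mul_one, inv_mul_cancel]
      exact one_mem _
    · have h3 : i v + 1 = m := le_antisymm (hi1 v) h2
      have h4 : τ ^ i (τ * v) = τ ^ 0 := by
        rw [h1, h3, hm, pow_orderOf_eq_one, pow_zero]
      have h5 := pow_injOn_Iio_orderOf (x := τ) (Set.mem_Iio.2 (hi1 (τ * v))) (Set.mem_Iio.2 hm0) h4
      rw [h5, h3, pow_zero, inv_one, one_mul]
      apply Subgroup.subset_closure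
      rw [Finset.mem_coe]
      exact Finset.mem_image_of_mem _ (Finset.mem_image_of_mem _ (Finset.mem_univ v))

end Pool.Agent.H85.FPS
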