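import Mathlib

/-!
# A Shearer type inequality for codimensions of intersections of subspaces
-/

set_option autoImplicit false

namespace Pool.Agent.H85.FPS

open Module

variable {F V Q A : Type*} [Field F] [AddCommGroup V] [Module F V] [Module.Finite F V]

omit [Module.Finite F V] in
theorem fin_empty (K : Q → Submodule F V) :
    finrank F ((∅ : Finset Q).inf K : Submodule F V) = finrank F V := by
  rw [Finset.inf_empty, finrank_top]

omit [Module.Finite F V] in
theorem inf_anti (K : Q → Submodule F V) {S T : Finset Q} (h : S ⊆ T) : T.inf K ≤ S.inf K :=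
  Finset.inf_mono h

/-- diminishing returns -/
theorem dimin [DecidableEq Q] (K : Q → Submodule F V) {S T : Finset Q} (h : S ⊆ T) (x : Q) :
    (finrank F (T.inf K : Submodule F V) : ℤ) - finrank F ((insert x T).inf K : Submodule F V) ≤
      (finrank F (S.inf K : Submodule F V) : ℤ) -
        finrank F ((insert x S).inf K : Submodule F V) := by
  have e1 := Submodule.finrank_sup_add_finrank_inf_eq (K x) (T.inf K)
  have e2 := Submodule.finrank_sup_add_finrank_inf_eq (K x) (S.inf K)
  have e3 : finrank F (K x ⊔ T.inf K : Submodule F V) ≤ finrank F (K x ⊔ S.inf K : Submodule F V) :=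
    Submodule.finrank_mono (sup_le_sup_left (inf_anti K h) _)
  rw [Finset.inf_insert, Finset.inf_insert]
  omega

theorem shearer [DecidableEq Q] (K : Q → Submodule F V) (I : Finset A) (S : A → Finset Q) (m : ℕ)
    (X : Finset Q) (hX : ∀ x ∈ X, m ≤ (I.filter (fun a => x ∈ S a)).card) :
    (m : ℤ) * ((finrank F V : ℤ) - finrank F (X.inf K : Submodule F V)) ≤
      ∑ a ∈ I, ((finrank F V : ℤ) - finrank F ((S a ∩ X).inf K : Submodule F V)) := by
  classical
  induction X using Finset.induction_on with
  | empty =>
    rw [fin_empty, sub_self, mul_zero]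
    refine le_of_eq (Finset.sum_eq_zero fun a _ => ?_).symm
    rw [Finset.inter_empty, fin_empty, sub_self]
  | insert x X hx ih =>
    have ih' := ih (fun y hy => hX y (Finset.mem_insert_of_mem hy))
    have hm := hX x (Finset.mem_insert_self x X)
    set δ : ℤ := (finrank F (X.inf K : Submodule F V) : ℤ) -
      finrank F ((insert x X).inf K : Submodule F V) with hδ
    have hδ0 : 0 ≤ δ := by
      have : finrank F ((insert x X).inf K : Submodule F V) ≤
          finrank F (X.inf K : Submodule F V) :=
        Submodule.finrank_mono (inf_anti K (Finset.subset_insert x X))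
      omega
    have key : ∀ a ∈ I, ((finrank F V : ℤ) - finrank F ((S a ∩ X).inf K : Submodule F V)) +
        (if x ∈ S a then δ else 0) ≤
        (finrank F V : ℤ) - finrank F ((S a ∩ insert x X).inf K : Submodule F V) := by
      intro a _
      by_cases h : x ∈ S a
      · rw [if_pos h, Finset.inter_insert_of_mem h]
        have := dimin K (Finset.inter_subset_right : S a ∩ X ⊆ X) x
        omega
      · rw [if_neg h, Finset.inter_insert_of_notMem h]
        omega
    have hs := Finset.sum_le_sum key
    rw [Finset.sum_add_distrib, ← Finset.sum_filter, Finset.sum_const, nsmul_eq_mul] at hs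
    have h1 : (m : ℤ) * δ ≤ ((I.filter (fun a => x ∈ S a)).card : ℤ) * δ :=
      mul_le_mul_of_nonneg_right (by exact_mod_cast hm) hδ0
    have h2 : (m : ℤ) * ((finrank F V : ℤ) - finrank F ((insert x X).inf K : Submodule F V)) =
        (m : ℤ) * ((finrank F V : ℤ) - finrank F (X.inf K : Submodule F V)) + (m : ℤ) * δ := by
      rw [hδ]; ring
    rw [h2]
    linarith

theorem codim_le [DecidableEq Q] (K : Q → Submodule F V) (d : ℕ)
    (hd : ∀ q, finrank F V ≤ finrank F (K q) + d) (S : Finset Q) :
    (finrank F V : ℤ) - finrank F (S.inf K : Submodule F V) ≤ d * S.card := by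
  induction S using Finset.induction_on with
  | empty => rw [fin_empty, sub_self, Finset.card_empty, Nat.cast_zero, mul_zero]
  | insert x S hx ih =>
    have e1 := Submodule.finrank_sup_add_finrank_inf_eq (K x) (S.inf K)
    have e2 : finrank F (K x ⊔ S.inf K : Submodule F V) ≤ finrank F V := Submodule.finrank_le _
    have e3 := hd x
    rw [Finset.inf_insert, Finset.card_insert_of_notMem hx]
    push_cast
    have e4 : (d : ℤ) * ((S.card : ℤ) + 1) = d * S.card + d := by ring
    rw [e4]
    omega

end Pool.Agent.H85.FPS
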